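import Pool.Agent.H74R2.WT.Stmts2

set_option autoImplicit false

/-! Wallpaper groups over `ℤ[i]` and `ℤ[e^{iπ/3}]` (helper940, tasks N3 and N4 of helper74). -/

namespace H74R2.WT.N34

open H74R2.WT

noncomputable section

/-- complex conjugation -/
abbrev cj (z : ℂ) : ℂ := (starRingEnd ℂ) z

/-- conditions on the lattice `L`, the order `n` of the rotations and the glide vector `h` -/
structure Dat (L : Subring ℂ) (τ h : ℂ) (n : ℕ) : Prop where
  n0 : n ≠ 0
  cjm : ∀ l ∈ L, cj l ∈ L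
  sep : ∀ l ∈ L, l ≠ 0 → 1 ≤ ‖l‖
  dec : ∀ l ∈ L, ∃ a b : ℤ, l = a + b * τ
  mem : τ ∈ L
  im : τ.im ≠ 0
  H1 : ∀ u ∈ L, u ^ n = 1 → (u - 1) * h ∈ L
  H2 : ∀ u ∈ L, u ^ n = 1 → u * cj h + h ∈ L

theorem mul_cj {n : ℕ} (hn : n ≠ 0) {u : ℂ} (hu : u ^ n = 1) : u * cj u = 1 := by
  have h1 : ‖u‖ = 1 := Complex.norm_eq_one_of_pow_eq_one hu hn
  show u * (starRingEnd ℂ) u = 1
  rw [Complex.mul_conj, Complex.normSq_eq_norm_sq, h1]
  simp

/-- the group: `z ↦ u z + l`, and if `m` also `z ↦ u conj z + l + h` -/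
def Grp {L : Subring ℂ} {τ h : ℂ} {n : ℕ} (hD : Dat L τ h n) (m : Prop) :
    Subgroup (ℂ ≃ᵢ ℂ) where
  carrier := {g | (∃ u ∈ L, u ^ n = 1 ∧ ∃ l ∈ L, ∀ z, g z = u * z + l) ∨
    (m ∧ ∃ u ∈ L, u ^ n = 1 ∧ ∃ l ∈ L, ∀ z, g z = u * cj z + l + h)}
  one_mem' := Or.inl ⟨1, one_mem _, one_pow _, 0, zero_mem _, fun z => by simp⟩
  mul_mem' := by
    rintro a b (⟨u, hu, hun, l, hl, ha⟩ | ⟨hm, u, hu, hun, l, hl, ha⟩)
      (⟨v, hv, hvn, k, hk, hb⟩ | ⟨hm', v, hv, hvn, k, hk, hb⟩)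
    · refine Or.inl ⟨u * v, mul_mem hu hv, by rw [mul_pow, hun, hvn, mul_one],
        u * k + l, add_mem (mul_mem hu hk) hl, fun z => ?_⟩
      show a (b z) = _
      rw [ha, hb]; ring
    · refine Or.inr ⟨hm', u * v, mul_mem hu hv, by rw [mul_pow, hun, hvn, mul_one],
        u * k + l + (u - 1) * h, add_mem (add_mem (mul_mem hu hk) hl) (hD.H1 u hu hun),
        fun z => ?_⟩
      show a (b z) = _
      rw [ha, hb]; ring
    · refine Or.inr ⟨hm, u * cj v, mul_mem hu (hD.cjm v hv), ?_,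
        u * cj k + l, add_mem (mul_mem hu (hD.cjm k hk)) hl, fun z => ?_⟩
      · rw [mul_pow, hun, one_mul]
        show ((starRingEnd ℂ) v) ^ n = 1
        rw [← map_pow, hvn, map_one]
      show a (b z) = _
      rw [ha, hb]
      simp only [cj, map_add, map_mul]
      ring
    · refine Or.inl ⟨u * cj v, mul_mem hu (hD.cjm v hv), ?_,
        u * cj k + l + (u * cj h + h), add_mem (add_mem (mul_mem hu (hD.cjm k hk)) hl)
          (hD.H2 u hu hun), fun z => ?_⟩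
      · rw [mul_pow, hun, one_mul]
        show ((starRingEnd ℂ) v) ^ n = 1
        rw [← map_pow, hvn, map_one]
      show a (b z) = _
      rw [ha, hb]
      simp only [cj, map_add, map_mul, Complex.conj_conj]
      ring
  inv_mem' := by
    rintro a (⟨u, hu, hun, l, hl, ha⟩ | ⟨hm, u, hu, hun, l, hl, ha⟩)
    · have h1 := mul_cj hD.n0 hun
      refine Or.inl ⟨cj u, hD.cjm u hu, ?_, -(cj u * l), neg_mem (mul_mem (hD.cjm u hu) hl),
        fun z => ?_⟩
      · show ((starRingEnd ℂ) u) ^ n = 1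
        rw [← map_pow, hun, map_one]
      have h2 : a (a⁻¹ z) = z := a.apply_inv_self z
      rw [ha] at h2
      linear_combination (cj u) * h2 - (a⁻¹ z) * h1
    · have h1 := mul_cj hD.n0 hun
      refine Or.inr ⟨hm, u, hu, hun, -(u * cj l) - (u * cj h + h),
        sub_mem (neg_mem (mul_mem hu (hD.cjm l hl))) (hD.H2 u hu hun), fun z => ?_⟩
      have h2 : a (a⁻¹ z) = z := a.apply_inv_self z
      rw [ha] at h2
      have h3 := congrArg cj h2
      simp only [cj, map_add, map_mul, Complex.conj_conj] at h3 h1 ⊢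
      linear_combination u * h3 - (a⁻¹ z) * h1

theorem mem_Grp {L : Subring ℂ} {τ h : ℂ} {n : ℕ} {hD : Dat L τ h n} {m : Prop} {g : ℂ ≃ᵢ ℂ} :
    g ∈ Grp hD m ↔ (∃ u ∈ L, u ^ n = 1 ∧ ∃ l ∈ L, ∀ z, g z = u * z + l) ∨
    (m ∧ ∃ u ∈ L, u ^ n = 1 ∧ ∃ l ∈ L, ∀ z, g z = u * cj z + l + h) := Iff.rfl

theorem disc {L : Subring ℂ} (sep : ∀ l ∈ L, l ≠ 0 → 1 ≤ ‖l‖) (c : ℂ) :
    ∃ δ > 0, ∀ l ∈ L, c + l ≠ 0 → δ ≤ ‖c + l‖ := by
  by_cases h0 : ∃ l0 ∈ L, ‖c + l0‖ < 1 / 2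
  · obtain ⟨l0, hl0, hlt⟩ := h0
    by_cases hz : c + l0 = 0
    · refine ⟨1 / 2, by norm_num, fun l hl hne => ?_⟩
      have h1 : l - l0 ≠ 0 := by
        intro hh
        apply hne
        rw [sub_eq_zero.1 hh]
        exact hz
      have h2 := sep _ (sub_mem hl hl0) h1
      have h3 : ‖l - l0‖ ≤ ‖c + l‖ + ‖c + l0‖ := by
        have : l - l0 = (c + l) - (c + l0) := by ring
        rw [this]
        exact norm_sub_le _ _
      linarith
    · refine ⟨min (1 / 2) ‖c + l0‖, lt_min (by norm_num) (norm_pos_iff.2 hz),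
        fun l hl hne => ?_⟩
      by_cases hll : l = l0
      · rw [hll]; exact min_le_right _ _
      · have h2 := sep _ (sub_mem hl hl0) (sub_ne_zero.2 hll)
        have h3 : ‖l - l0‖ ≤ ‖c + l‖ + ‖c + l0‖ := by
          have : l - l0 = (c + l) - (c + l0) := by ring
          rw [this]
          exact norm_sub_le _ _
        refine (min_le_left _ _).trans ?_
        linarith
  · push Not at h0
    exact ⟨1 / 2, by norm_num, fun l hl _ => h0 l hl⟩

theorem fin_min {α : Type} (s : Finset α) (p : α → ℝ → Prop)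
    (hp : ∀ a ∈ s, ∃ δ > 0, p a δ) (hmono : ∀ a δ δ', δ' ≤ δ → p a δ → p a δ') :
    ∃ δ > 0, ∀ a ∈ s, p a δ := by
  classical
  induction s using Finset.induction_on with
  | empty => exact ⟨1, one_pos, by simp⟩
  | insert a s _ ih =>
    obtain ⟨δ, hδ, h1⟩ := ih fun b hb => hp b (Finset.mem_insert_of_mem hb)
    obtain ⟨δ', hδ', h2⟩ := hp a (Finset.mem_insert_self _ _)
    refine ⟨min δ δ', lt_min hδ hδ', fun b hb => ?_⟩
    rcases Finset.mem_insert.1 hb with rfl | hb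
    · exact hmono _ _ _ (min_le_right _ _) h2
    · exact hmono _ _ _ (min_le_left _ _) (h1 b hb)

theorem wall {L : Subring ℂ} {τ h : ℂ} {n : ℕ} (hD : Dat L τ h n) (m : Prop) :
    IsWallpaper (Grp hD m) := by
  constructor
  · refine ⟨Metric.closedBall 0 (1 + ‖τ‖), Metric.isBounded_closedBall, fun z => ?_⟩
    set y : ℝ := z.im / τ.im with hy
    set x : ℝ := z.re - y * τ.re with hx
    have hz : z = (x : ℂ) + (y : ℂ) * τ := by
      apply Complex.ext
      · simp [hx]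
      · simp [hy, div_mul_cancel₀ _ hD.im]
    set l : ℂ := ((⌊x⌋ : ℤ) : ℂ) + ((⌊y⌋ : ℤ) : ℂ) * τ with hl
    have hlL : l ∈ L := add_mem (intCast_mem L _) (mul_mem (intCast_mem L _) hD.mem)
    refine ⟨tr l, Or.inl ⟨1, one_mem _, one_pow _, l, hlL, fun w => ?_⟩, z - l, ?_, ?_⟩
    · show w + l = 1 * w + l
      ring
    · rw [mem_closedBall_zero_iff]
      have h1 : z - l = ((Int.fract x : ℝ) : ℂ) + ((Int.fract y : ℝ) : ℂ) * τ := by
        rw [hz, hl, Int.fract, Int.fract]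
        push_cast
        ring
      rw [h1]
      refine (norm_add_le _ _).trans (add_le_add ?_ ?_)
      · rw [Complex.norm_real, Real.norm_eq_abs, abs_of_nonneg (Int.fract_nonneg x)]
        exact (Int.fract_lt_one x).le
      · rw [norm_mul, Complex.norm_real, Real.norm_eq_abs, abs_of_nonneg (Int.fract_nonneg y)]
        exact mul_le_of_le_one_left (norm_nonneg _) (Int.fract_lt_one y).le
    · show z - l + l = z
      ring
  · intro p
    obtain ⟨δ, hδ, h1⟩ := fin_min (Polynomial.nthRootsFinset n (1 : ℂ))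
      (fun u δ => (∀ l ∈ L, (u * p - p) + l ≠ 0 → δ ≤ ‖(u * p - p) + l‖) ∧
        (∀ l ∈ L, (u * cj p + h - p) + l ≠ 0 → δ ≤ ‖(u * cj p + h - p) + l‖))
      (by
        intro u _
        obtain ⟨d1, hd1, k1⟩ := disc hD.sep (u * p - p)
        obtain ⟨d2, hd2, k2⟩ := disc hD.sep (u * cj p + h - p)
        exact ⟨min d1 d2, lt_min hd1 hd2, fun l hl hne => (min_le_left _ _).trans (k1 l hl hne),
          fun l hl hne => (min_le_right _ _).trans (k2 l hl hne)⟩)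
      (by
        rintro u d d' hdd ⟨k1, k2⟩
        exact ⟨fun l hl hne => hdd.trans (k1 l hl hne), fun l hl hne => hdd.trans (k2 l hl hne)⟩)
    refine ⟨δ, hδ, ?_⟩
    rintro g (⟨u, hu, hun, l, hl, hg⟩ | ⟨hm, u, hu, hun, l, hl, hg⟩) hne
    · have h2 := (h1 u ((Polynomial.mem_nthRootsFinset (Nat.pos_of_ne_zero hD.n0) _).2 hun)).1
        l hl
      have h3 : (u * p - p) + l = g p - p := by rw [hg]; ring
      rw [h3] at h2
      rw [dist_comm, dist_eq_norm]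
      exact h2 (sub_ne_zero.2 hne)
    · have h2 := (h1 u ((Polynomial.mem_nthRootsFinset (Nat.pos_of_ne_zero hD.n0) _).2 hun)).2
        l hl
      have h3 : (u * cj p + h - p) + l = g p - p := by rw [hg]; ring
      rw [h3] at h2
      rw [dist_comm, dist_eq_norm]
      exact h2 (sub_ne_zero.2 hne)

/-! ### the lattices -/

/-- `ℤ + ℤ τ`, `τ² = s τ - 1` -/
def LL (s : ℤ) (τ : ℂ) (hτ : τ * τ = s * τ - 1) : Subring ℂ where
  carrier := {l | ∃ a b : ℤ, l = a + b * τ}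
  zero_mem' := ⟨0, 0, by simp⟩
  one_mem' := ⟨1, 0, by simp⟩
  add_mem' := by
    rintro _ _ ⟨a, b, rfl⟩ ⟨c, d, rfl⟩
    exact ⟨a + c, b + d, by push_cast; ring⟩
  neg_mem' := by
    rintro _ ⟨a, b, rfl⟩
    exact ⟨-a, -b, by push_cast; ring⟩
  mul_mem' := by
    rintro _ _ ⟨a, b, rfl⟩ ⟨c, d, rfl⟩
    refine ⟨a * c - b * d, a * d + b * c + s * b * d, ?_⟩
    push_cast
    linear_combination (b * d : ℂ) * hτ

theorem datLL {s : ℤ} {τ : ℂ} (hτ : τ * τ = s * τ - 1) (hc : cj τ = s - τ) (him : τ.im ≠ 0)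
    {n : ℕ} (hn : n ≠ 0) {h : ℂ} (H1 : ∀ u ∈ LL s τ hτ, u ^ n = 1 → (u - 1) * h ∈ LL s τ hτ)
    (H2 : ∀ u ∈ LL s τ hτ, u ^ n = 1 → u * cj h + h ∈ LL s τ hτ) : Dat (LL s τ hτ) τ h n where
  n0 := hn
  cjm := by
    rintro _ ⟨a, b, rfl⟩
    refine ⟨a + b * s, -b, ?_⟩
    have h1 : (starRingEnd ℂ) τ = s - τ := hc
    show (starRingEnd ℂ) ((a : ℂ) + b * τ) = _
    rw [map_add, map_mul, map_intCast, map_intCast, h1]
    push_cast
    ring
  sep := by
    rintro _ ⟨a, b, rfl⟩ hne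
    have h1 : (starRingEnd ℂ) τ = s - τ := hc
    have h2 : ((a : ℂ) + b * τ) * (starRingEnd ℂ) ((a : ℂ) + b * τ) =
        ((a ^ 2 + s * a * b + b ^ 2 : ℤ) : ℂ) := by
      rw [map_add, map_mul, map_intCast, map_intCast, h1]
      push_cast
      linear_combination (-(b : ℂ) ^ 2) * hτ
    rw [Complex.mul_conj, Complex.normSq_eq_norm_sq] at h2
    have h3 : (‖(a : ℂ) + b * τ‖ ^ 2 : ℝ) = ((a ^ 2 + s * a * b + b ^ 2 : ℤ) : ℝ) := by
      exact_mod_cast h2
    have h4 : (0 : ℝ) < ‖(a : ℂ) + b * τ‖ ^ 2 := pow_pos (norm_pos_iff.2 hne) 2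
    rw [h3] at h4
    have h5 : (0 : ℤ) < a ^ 2 + s * a * b + b ^ 2 := by exact_mod_cast h4
    have h6 : (1 : ℝ) ≤ ((a ^ 2 + s * a * b + b ^ 2 : ℤ) : ℝ) := by exact_mod_cast h5
    rw [← h3] at h6
    nlinarith [norm_nonneg ((a : ℂ) + b * τ)]
  dec := fun l hl => hl
  mem := ⟨0, 1, by simp⟩
  im := him
  H1 := H1
  H2 := H2

/-! ### some isometries -/

/-- `z ↦ u z + l` -/
def rt (u : ℂ) (hu : ‖u‖ = 1) (l : ℂ) : ℂ ≃ᵢ ℂ :=
  ((rotation ⟨u, mem_sphere_zero_iff_norm.2 hu⟩).toIsometryEquiv).trans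
    (IsometryEquiv.addRight l)

theorem rt_apply (u : ℂ) (hu : ‖u‖ = 1) (l z : ℂ) : rt u hu l z = u * z + l := rfl

/-- `z ↦ u conj z + l` -/
def rf (u : ℂ) (hu : ‖u‖ = 1) (l : ℂ) : ℂ ≃ᵢ ℂ :=
  (Complex.conjLIE.toIsometryEquiv).trans (rt u hu l)

theorem rf_apply (u : ℂ) (hu : ‖u‖ = 1) (l z : ℂ) : rf u hu l z = u * cj z + l := rfl

/-! ### invariants -/

/-- an element of order two -/
def InvA (G : Type) [Group G] : Prop := ∃ a : G, a ≠ 1 ∧ a * a = 1

/-- two distinct commuting elements of order two -/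
def InvB (G : Type) [Group G] : Prop :=
  ∃ a b : G, a ≠ 1 ∧ b ≠ 1 ∧ a ≠ b ∧ a * a = 1 ∧ b * b = 1 ∧ a * b = b * a

/-- an element of order four inverted by one of order two -/
def InvC (G : Type) [Group G] : Prop :=
  ∃ g s : G, g * g ≠ 1 ∧ g * g * (g * g) = 1 ∧ s ≠ 1 ∧ s * s = 1 ∧ s * g * s * g = 1

theorem InvA.map {G H : Type} [Group G] [Group H] (e : G ≃* H) (h : InvA G) : InvA H := by
  obtain ⟨a, h1, h2⟩ := h
  exact ⟨e a, fun hh => h1 (e.map_eq_one_iff.1 hh), by rw [← map_mul, h2, map_one]⟩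

theorem InvB.map {G H : Type} [Group G] [Group H] (e : G ≃* H) (h : InvB G) : InvB H := by
  obtain ⟨a, b, h1, h2, h3, h4, h5, h6⟩ := h
  exact ⟨e a, e b, fun hh => h1 (e.map_eq_one_iff.1 hh), fun hh => h2 (e.map_eq_one_iff.1 hh),
    fun hh => h3 (e.injective hh), by rw [← map_mul, h4, map_one],
    by rw [← map_mul, h5, map_one], by rw [← map_mul, h6, map_mul]⟩

theorem InvC.map {G H : Type} [Group G] [Group H] (e : G ≃* H) (h : InvC G) : InvC H := by
  obtain ⟨g, s, h1, h2, h3, h4, h5⟩ := h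
  refine ⟨e g, e s, fun hh => h1 ?_, ?_, fun hh => h3 (e.map_eq_one_iff.1 hh), ?_, ?_⟩
  · rw [← map_mul] at hh; exact e.map_eq_one_iff.1 hh
  · rw [← map_mul, ← map_mul, h2, map_one]
  · rw [← map_mul, h4, map_one]
  · rw [← map_mul, ← map_mul, ← map_mul, h5, map_one]

/-- the groups of rotations and translations do not contain two distinct commuting elements of
order two -/
theorem not_InvB {L : Subring ℂ} {τ h : ℂ} {n : ℕ} (hD : Dat L τ h n) :
    ¬ InvB (Grp hD False) := by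
  rintro ⟨⟨a, ha⟩, ⟨b, hb⟩, h1, h2, h3, h4, h5, h6⟩
  have key : ∀ a : ℂ ≃ᵢ ℂ, a ∈ Grp hD False → a ≠ 1 → a * a = 1 →
      ∃ l, ∀ z, a z = -z + l := by
    rintro a (⟨u, hu, hun, l, hl, hg⟩ | ⟨hm, -⟩) hne hsq
    · have e1 : a (a 0) = 0 := by
        have := congrArg (fun g : ℂ ≃ᵢ ℂ => g 0) hsq
        exact this
      have e2 : a (a 1) = 1 := by
        have := congrArg (fun g : ℂ ≃ᵢ ℂ => g 1) hsq
        exact this
      rw [hg, hg] at e1 e2
      have e3 : (u - 1) * (u + 1) = 0 := by linear_combination e2 - e1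
      rcases mul_eq_zero.1 e3 with e4 | e4
      · exfalso
        apply hne
        have e5 : u = 1 := by linear_combination e4
        have e6 : l = 0 := by
          rw [e5] at e1
          linear_combination e1 / 2
        ext z
        rw [hg, e5, e6]
        simp
      · refine ⟨l, fun z => ?_⟩
        rw [hg]
        linear_combination z * e4
    · exact hm.elim
  obtain ⟨l, hl⟩ := key a ha (fun hh => h1 (Subtype.ext hh)) (congrArg Subtype.val h4)
  obtain ⟨k, hk⟩ := key b hb (fun hh => h2 (Subtype.ext hh)) (congrArg Subtype.val h5)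
  have e1 : a (b 0) = b (a 0) := by
    have := congrArg (fun g : ℂ ≃ᵢ ℂ => g 0) (congrArg Subtype.val h6)
    exact this
  rw [hl, hk, hk, hl] at e1
  apply h3
  apply Subtype.ext
  ext z
  show a z = b z
  rw [hl, hk]
  linear_combination e1 / 2

end

end H74R2.WT.N34
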