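import Pool.Agent.H940R.WT.Base

set_option autoImplicit false

/-! Task N3 of helper74 (helper940). -/

namespace H74R2.WT.N34

open H74R2.WT

noncomputable section

theorem e3_sq : e3 * e3 = ((1 : ℤ) : ℂ) * e3 - 1 := by
  have h3 : Real.sqrt 3 * Real.sqrt 3 = 3 := Real.mul_self_sqrt (by norm_num)
  apply Complex.ext
  · simp only [e3, Complex.mul_re, Complex.sub_re, Complex.one_re, Int.cast_one, one_mul]
    linear_combination (-1 / 4 : ℝ) * h3
  · simp only [e3, Complex.mul_im, Complex.sub_im, Complex.one_im, Int.cast_one, one_mul]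
    ring

theorem e3_cj : cj e3 = ((1 : ℤ) : ℂ) - e3 := by
  apply Complex.ext
  · simp [e3, cj]
    norm_num
  · simp [e3, cj]

theorem e3_im : e3.im ≠ 0 := by
  have : (0 : ℝ) < Real.sqrt 3 := Real.sqrt_pos.2 (by norm_num)
  show Real.sqrt 3 / 2 ≠ 0
  positivity

def L3 : Subring ℂ := LL 1 e3 e3_sq

theorem dat3 {n : ℕ} (hn : n ≠ 0) : Dat L3 e3 0 n :=
  datLL e3_sq e3_cj e3_im hn (fun u _ _ => by rw [mul_zero]; exact zero_mem _)
    (fun u _ _ => by
      have : u * cj 0 + 0 = 0 := by simp [cj]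
      rw [this]; exact zero_mem _)

/-- `w = e^{2 i π/3}` -/
def w3 : ℂ := e3 - 1

theorem w3_sq : w3 * w3 + w3 + 1 = 0 := by
  have h := e3_sq
  simp only [Int.cast_one, one_mul] at h
  unfold w3
  linear_combination h

theorem w3_cube : w3 ^ 3 = 1 := by
  linear_combination (w3 - 1) * w3_sq

theorem w3_mem : w3 ∈ L3 := sub_mem ⟨0, 1, by simp⟩ (one_mem _)

theorem w3_norm : ‖w3‖ = 1 := Complex.norm_eq_one_of_pow_eq_one w3_cube (by norm_num)

theorem w3_ne : w3 ≠ 1 := by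
  intro h
  have := w3_sq
  rw [h] at this
  norm_num at this

/-- the rotation of order three -/
def g3 : ℂ ≃ᵢ ℂ := rt w3 w3_norm 0

theorem g3_order : orderOf g3 = 3 := by
  have : Fact (Nat.Prime 3) := ⟨by norm_num⟩
  refine orderOf_eq_prime ?_ ?_
  · ext z
    show g3 (g3 (g3 z)) = z
    show w3 * (w3 * (w3 * z + 0) + 0) + 0 = z
    linear_combination z * w3_cube
  · intro h
    have h1 : g3 1 = (1 : ℂ ≃ᵢ ℂ) 1 := by rw [h]
    have h2 : w3 * 1 + 0 = 1 := h1
    apply w3_ne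
    linear_combination h2

theorem t_N3 : T_N3 := by
  let A : Subgroup (ℂ ≃ᵢ ℂ) := Grp (dat3 (n := 3) (by norm_num)) False
  let B : Subgroup (ℂ ≃ᵢ ℂ) := Grp (dat3 (n := 6) (by norm_num)) False
  let C : Subgroup (ℂ ≃ᵢ ℂ) := Grp (dat3 (n := 6) (by norm_num)) True
  have w36 : w3 ^ 6 = 1 := by
    have : w3 ^ 6 = (w3 ^ 3) ^ 2 := by ring
    rw [this, w3_cube, one_pow]
  have gA : g3 ∈ A := Or.inl ⟨w3, w3_mem, w3_cube, 0, zero_mem _, fun z => rfl⟩
  have gB : g3 ∈ B := Or.inl ⟨w3, w3_mem, w36, 0, zero_mem _, fun z => rfl⟩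
  have gC : g3 ∈ C := Or.inl ⟨w3, w3_mem, w36, 0, zero_mem _, fun z => rfl⟩
  -- invariants
  have nA : ¬ InvA A := by
    rintro ⟨⟨a, ha⟩, h1, h2⟩
    rcases ha with ⟨u, hu, hun, l, hl, hg⟩ | ⟨hm, -⟩
    · have hsq : a * a = 1 := congrArg Subtype.val h2
      have e1 : a (a 0) = 0 := congrArg (fun g : ℂ ≃ᵢ ℂ => g 0) hsq
      have e2 : a (a 1) = 1 := congrArg (fun g : ℂ ≃ᵢ ℂ => g 1) hsq
      rw [hg, hg] at e1 e2
      have e3 : u * u = 1 := by linear_combination e2 - e1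
      have e4 : u = 1 := by
        have : u ^ 3 = u * (u * u) := by ring
        rw [this, e3, mul_one] at hun
        exact hun
      have e5 : l = 0 := by
        rw [e4] at e1
        linear_combination e1 / 2
      apply h1
      apply Subtype.ext
      ext z
      show a z = z
      rw [hg, e4, e5]
      simp
    · exact hm.elim
  have iB : InvA B := by
    have hn : ‖(-1 : ℂ)‖ = 1 := by simp
    refine ⟨⟨rt (-1) hn 0, Or.inl ⟨-1, neg_mem (one_mem _), by norm_num, 0, zero_mem _,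
      fun z => rfl⟩⟩, ?_, ?_⟩
    · intro h
      have h1 : rt (-1) hn 0 = 1 := congrArg Subtype.val h
      have h2 : rt (-1) hn 0 1 = (1 : ℂ ≃ᵢ ℂ) 1 := by rw [h1]
      have h3 : (-1 : ℂ) * 1 + 0 = 1 := h2
      norm_num at h3
    · apply Subtype.ext
      ext z
      show (-1 : ℂ) * (-1 * z + 0) + 0 = z
      ring
  have nB : ¬ InvB B := not_InvB _
  have iC : InvB C := by
    have hn : ‖(-1 : ℂ)‖ = 1 := by simp
    have hp : ‖(1 : ℂ)‖ = 1 := by simp
    refine ⟨⟨rf 1 hp 0, Or.inr ⟨trivial, 1, one_mem _, one_pow _, 0, zero_mem _, fun z => ?_⟩⟩,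
      ⟨rf (-1) hn 0, Or.inr ⟨trivial, -1, neg_mem (one_mem _), by norm_num, 0, zero_mem _,
        fun z => ?_⟩⟩, ?_, ?_, ?_, ?_, ?_, ?_⟩
    · rw [rf_apply, add_zero, add_zero]
    · rw [rf_apply, add_zero, add_zero]
    · intro h
      have h1 : rf 1 hp 0 = 1 := congrArg Subtype.val h
      have h2 : rf 1 hp 0 Complex.I = (1 : ℂ ≃ᵢ ℂ) Complex.I := by rw [h1]
      have h3 : (1 : ℂ) * (starRingEnd ℂ) Complex.I + 0 = Complex.I := h2
      have h4 := congrArg Complex.im h3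
      norm_num at h4
    · intro h
      have h1 : rf (-1) hn 0 = 1 := congrArg Subtype.val h
      have h2 : rf (-1) hn 0 1 = (1 : ℂ ≃ᵢ ℂ) 1 := by rw [h1]
      have h3 : (-1 : ℂ) * (starRingEnd ℂ) 1 + 0 = 1 := h2
      rw [map_one] at h3
      norm_num at h3
    · intro h
      have h1 : rf 1 hp 0 = rf (-1) hn 0 := congrArg Subtype.val h
      have h2 : rf 1 hp 0 1 = rf (-1) hn 0 1 := by rw [h1]
      have h3 : (1 : ℂ) * (starRingEnd ℂ) 1 + 0 = (-1 : ℂ) * (starRingEnd ℂ) 1 + 0 := h2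
      rw [map_one] at h3
      norm_num at h3
    · apply Subtype.ext
      ext z
      show (1 : ℂ) * (starRingEnd ℂ) (1 * (starRingEnd ℂ) z + 0) + 0 = z
      simp
    · apply Subtype.ext
      ext z
      show (-1 : ℂ) * (starRingEnd ℂ) (-1 * (starRingEnd ℂ) z + 0) + 0 = z
      simp
    · apply Subtype.ext
      ext z
      show (1 : ℂ) * (starRingEnd ℂ) (-1 * (starRingEnd ℂ) z + 0) + 0 =
        (-1 : ℂ) * (starRingEnd ℂ) (1 * (starRingEnd ℂ) z + 0) + 0
      simp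
  have iCA : InvA C := by
    obtain ⟨a, -, h1, -, -, h2, -, -⟩ := iC
    exact ⟨a, h1, h2⟩
  have hAB : IsEmpty (A ≃* B) := ⟨fun e => nA (iB.map e.symm)⟩
  have hAC : IsEmpty (A ≃* C) := ⟨fun e => nA (iCA.map e.symm)⟩
  have hBC : IsEmpty (B ≃* C) := ⟨fun e => nB (iC.map e.symm)⟩
  have hBA : IsEmpty (B ≃* A) := ⟨fun e => nA (iB.map e)⟩
  have hCA : IsEmpty (C ≃* A) := ⟨fun e => nA (iCA.map e)⟩
  have hCB : IsEmpty (C ≃* B) := ⟨fun e => nB (iC.map e)⟩
  refine ⟨![A, B, C], ?_, ?_, ?_⟩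
  · intro i
    fin_cases i
    · exact wall (dat3 (n := 3) (by norm_num)) False
    · exact wall (dat3 (n := 6) (by norm_num)) False
    · exact wall (dat3 (n := 6) (by norm_num)) True
  · intro i
    refine ⟨g3, ?_, g3_order⟩
    fin_cases i
    · exact gA
    · exact gB
    · exact gC
  · intro i j hij
    fin_cases i <;> fin_cases j
    · exact absurd rfl hij
    · exact hAB
    · exact hAC
    · exact hBA
    · exact absurd rfl hij
    · exact hBC
    · exact hCA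
    · exact hCB
    · exact absurd rfl hij

end

end H74R2.WT.N34

namespace H74R2.WT

/-- task N3 -/
theorem t_N3 : T_N3 := N34.t_N3

end H74R2.WT
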