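import Pool.Agent.H940R.WT.Base

set_option autoImplicit false

/-! Task N4 of helper74 (helper940). -/

namespace H74R2.WT.N34

open H74R2.WT

noncomputable section

theorem I_sq4 : Complex.I * Complex.I = ((0 : ℤ) : ℂ) * Complex.I - 1 := by
  rw [Complex.I_mul_I]; simp

def L4 : Subring ℂ := LL 0 Complex.I I_sq4

/-- the glide vector -/
def h4 : ℂ := (1 + Complex.I) / 2

theorem units4 {u : ℂ} (h : u ^ 4 = 1) : u = 1 ∨ u = -1 ∨ u = Complex.I ∨ u = -Complex.I := by
  have h1 : (u - 1) * ((u + 1) * ((u - Complex.I) * (u + Complex.I))) = 0 := by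
    linear_combination h + (1 - u ^ 2) * Complex.I_mul_I
  rcases mul_eq_zero.1 h1 with h2 | h2
  · exact Or.inl (by linear_combination h2)
  rcases mul_eq_zero.1 h2 with h2 | h2
  · exact Or.inr (Or.inl (by linear_combination h2))
  rcases mul_eq_zero.1 h2 with h2 | h2
  · exact Or.inr (Or.inr (Or.inl (by linear_combination h2)))
  · exact Or.inr (Or.inr (Or.inr (by linear_combination h2)))

theorem I_cj4 : cj Complex.I = ((0 : ℤ) : ℂ) - Complex.I := by
  show (starRingEnd ℂ) Complex.I = _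
  rw [Complex.conj_I]; simp

theorem dat4 : Dat L4 Complex.I 0 4 :=
  datLL I_sq4 I_cj4 (by simp) (by norm_num) (fun u _ _ => by rw [mul_zero]; exact zero_mem _)
    (fun u _ _ => by
      have : u * cj 0 + 0 = 0 := by simp [cj]
      rw [this]; exact zero_mem _)

theorem cj_h4 : cj h4 = (1 - Complex.I) / 2 := by
  show (starRingEnd ℂ) ((1 + Complex.I) / 2) = _
  simp only [map_div₀, map_add, map_one, Complex.conj_I, map_ofNat]
  ring

theorem dat4g : Dat L4 Complex.I h4 4 := by
  refine datLL I_sq4 I_cj4 (by simp) (by norm_num) ?_ ?_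
  · intro u _ hu
    rcases units4 hu with rfl | rfl | rfl | rfl
    · exact ⟨0, 0, by simp⟩
    · exact ⟨-1, -1, by unfold h4; push_cast; ring⟩
    · exact ⟨-1, 0, by unfold h4; push_cast; linear_combination (1 / 2) * Complex.I_mul_I⟩
    · exact ⟨0, -1, by unfold h4; push_cast; linear_combination (-1 / 2) * Complex.I_mul_I⟩
  · intro u _ hu
    rw [cj_h4]
    rcases units4 hu with rfl | rfl | rfl | rfl
    · exact ⟨1, 0, by unfold h4; push_cast; ring⟩
    · exact ⟨0, 1, by unfold h4; push_cast; ring⟩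
    · exact ⟨1, 1, by unfold h4; push_cast; linear_combination (-1 / 2) * Complex.I_mul_I⟩
    · exact ⟨0, 0, by unfold h4; push_cast; linear_combination (1 / 2) * Complex.I_mul_I⟩

/-- the rotation of order four -/
def g4 : ℂ ≃ᵢ ℂ := rt Complex.I (by simp) 0

theorem g4_order : orderOf g4 = 4 := by
  have : Fact (Nat.Prime 2) := ⟨by norm_num⟩
  have h := orderOf_eq_prime_pow (x := g4) (p := 2) (n := 1) ?_ ?_
  · simpa using h
  · intro h
    have h1 : (g4 ^ 2 ^ 1) 1 = (1 : ℂ ≃ᵢ ℂ) 1 := by rw [h]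
    have h2 : Complex.I * (Complex.I * 1 + 0) + 0 = 1 := h1
    have h3 := Complex.I_mul_I
    have h4 : (2 : ℂ) = 0 := by linear_combination h3 - h2
    norm_num at h4
  · ext z
    show Complex.I * (Complex.I * (Complex.I * (Complex.I * z + 0) + 0) + 0) + 0 = z
    linear_combination (Complex.I * Complex.I - 1) * z * Complex.I_mul_I

theorem hnI : ‖(Complex.I : ℂ)‖ = 1 := by simp
theorem hnnI : ‖(-Complex.I : ℂ)‖ = 1 := by simp
theorem hn1 : ‖(1 : ℂ)‖ = 1 := by simp
theorem hnn1 : ‖(-1 : ℂ)‖ = 1 := by simp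

theorem gB_B : InvB (Grp dat4g True) := by
  refine ⟨⟨rf (-Complex.I) hnnI h4, Or.inr ⟨trivial, -Complex.I, neg_mem dat4.mem, ?_, 0,
      zero_mem _, fun z => ?_⟩⟩,
    ⟨rf Complex.I hnI (-Complex.I + h4), Or.inr ⟨trivial, Complex.I, dat4.mem, ?_, -Complex.I,
      neg_mem dat4.mem, fun z => ?_⟩⟩, ?_, ?_, ?_, ?_, ?_, ?_⟩
  · linear_combination (Complex.I * Complex.I - 1) * Complex.I_mul_I
  · rw [rf_apply, add_zero]
  · linear_combination (Complex.I * Complex.I - 1) * Complex.I_mul_I
  · rw [rf_apply]; ring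
  · intro h
    have h1 : rf (-Complex.I) hnnI h4 = 1 := congrArg Subtype.val h
    have h2 : rf (-Complex.I) hnnI h4 0 = (1 : ℂ ≃ᵢ ℂ) 0 := by rw [h1]
    have h3 : (-Complex.I) * (starRingEnd ℂ) 0 + h4 = 0 := h2
    rw [map_zero, mul_zero, zero_add] at h3
    have h5 := congrArg Complex.re h3
    simp [h4] at h5
  · intro h
    have h1 : rf Complex.I hnI (-Complex.I + h4) = 1 := congrArg Subtype.val h
    have h2 : rf Complex.I hnI (-Complex.I + h4) 0 = (1 : ℂ ≃ᵢ ℂ) 0 := by rw [h1]
    have h3 : (Complex.I) * (starRingEnd ℂ) 0 + (-Complex.I + h4) = 0 := h2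
    rw [map_zero, mul_zero, zero_add] at h3
    have h5 := congrArg Complex.re h3
    simp [h4] at h5
  · intro h
    have h1 : rf (-Complex.I) hnnI h4 = rf Complex.I hnI (-Complex.I + h4) :=
      congrArg Subtype.val h
    have h2 : rf (-Complex.I) hnnI h4 0 = rf Complex.I hnI (-Complex.I + h4) 0 := by rw [h1]
    have h3 : (-Complex.I) * (starRingEnd ℂ) 0 + h4 =
      (Complex.I) * (starRingEnd ℂ) 0 + (-Complex.I + h4) := h2
    rw [map_zero, mul_zero, mul_zero, zero_add, zero_add] at h3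
    have h5 := congrArg Complex.im h3
    simp at h5
  · apply Subtype.ext
    ext z
    show (-Complex.I) * cj (-Complex.I * cj z + h4) + h4 = z
    have h1 := cj_h4
    simp only [cj, map_add, map_mul, map_neg, Complex.conj_conj, Complex.conj_I] at h1 ⊢
    rw [h1]
    unfold h4
    linear_combination (-z + 1 / 2) * Complex.I_mul_I
  · apply Subtype.ext
    ext z
    show (Complex.I) * cj (Complex.I * cj z + (-Complex.I + h4)) + (-Complex.I + h4) = z
    have h1 := cj_h4
    simp only [cj, map_add, map_mul, map_neg, Complex.conj_conj, Complex.conj_I] at h1 ⊢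
    rw [h1]
    unfold h4
    linear_combination (-z + 1 / 2) * Complex.I_mul_I
  · apply Subtype.ext
    ext z
    show (-Complex.I) * cj (Complex.I * cj z + (-Complex.I + h4)) + h4 =
      (Complex.I) * cj (-Complex.I * cj z + h4) + (-Complex.I + h4)
    have h1 := cj_h4
    simp only [cj, map_add, map_mul, map_neg, Complex.conj_conj, Complex.conj_I] at h1 ⊢
    rw [h1]
    unfold h4
    linear_combination (-1 : ℂ) * Complex.I_mul_I + Complex.I_mul_I

theorem gC_C : InvC (Grp dat4 True) := by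
  refine ⟨⟨g4, Or.inl ⟨Complex.I, dat4.mem, ?_, 0, zero_mem _, fun z => rfl⟩⟩,
    ⟨rf 1 hn1 0, Or.inr ⟨trivial, 1, one_mem _, one_pow _, 0, zero_mem _, fun z => ?_⟩⟩,
    ?_, ?_, ?_, ?_, ?_⟩
  · linear_combination (Complex.I * Complex.I - 1) * Complex.I_mul_I
  · rw [rf_apply, add_zero, add_zero]
  · intro h
    have h1 : g4 * g4 = 1 := congrArg Subtype.val h
    have h2 : (g4 * g4) 1 = (1 : ℂ ≃ᵢ ℂ) 1 := by rw [h1]
    have h3 : Complex.I * (Complex.I * 1 + 0) + 0 = 1 := h2
    have h4 := Complex.I_mul_I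
    have h5 : (2 : ℂ) = 0 := by linear_combination h4 - h3
    norm_num at h5
  · apply Subtype.ext
    ext z
    show Complex.I * (Complex.I * (Complex.I * (Complex.I * z + 0) + 0) + 0) + 0 = z
    linear_combination (Complex.I * Complex.I - 1) * z * Complex.I_mul_I
  · intro h
    have h1 : rf 1 hn1 0 = 1 := congrArg Subtype.val h
    have h2 : rf 1 hn1 0 Complex.I = (1 : ℂ ≃ᵢ ℂ) Complex.I := by rw [h1]
    have h3 : (1 : ℂ) * (starRingEnd ℂ) Complex.I + 0 = Complex.I := h2
    have h4 := congrArg Complex.im h3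
    norm_num at h4
  · apply Subtype.ext
    ext z
    show (1 : ℂ) * (starRingEnd ℂ) (1 * (starRingEnd ℂ) z + 0) + 0 = z
    simp
  · apply Subtype.ext
    ext z
    show (1 : ℂ) * cj (Complex.I * (1 * cj (Complex.I * z + 0) + 0) + 0) + 0 = z
    simp only [cj, map_add, map_mul, map_neg, map_zero, map_one, Complex.conj_conj,
      Complex.conj_I]
    linear_combination (-z) * Complex.I_mul_I

theorem gB_C : InvB (Grp dat4 True) := by
  refine ⟨⟨rf 1 hn1 0, Or.inr ⟨trivial, 1, one_mem _, one_pow _, 0, zero_mem _, fun z => ?_⟩⟩,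
    ⟨rf (-1) hnn1 0, Or.inr ⟨trivial, -1, neg_mem (one_mem _), by norm_num, 0, zero_mem _,
      fun z => ?_⟩⟩, ?_, ?_, ?_, ?_, ?_, ?_⟩
  · rw [rf_apply, add_zero, add_zero]
  · rw [rf_apply, add_zero, add_zero]
  · intro h
    have h1 : rf 1 hn1 0 = 1 := congrArg Subtype.val h
    have h2 : rf 1 hn1 0 Complex.I = (1 : ℂ ≃ᵢ ℂ) Complex.I := by rw [h1]
    have h3 : (1 : ℂ) * (starRingEnd ℂ) Complex.I + 0 = Complex.I := h2
    have h4 := congrArg Complex.im h3
    norm_num at h4
  · intro h
    have h1 : rf (-1) hnn1 0 = 1 := congrArg Subtype.val h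
    have h2 : rf (-1) hnn1 0 1 = (1 : ℂ ≃ᵢ ℂ) 1 := by rw [h1]
    have h3 : (-1 : ℂ) * (starRingEnd ℂ) 1 + 0 = 1 := h2
    rw [map_one] at h3
    norm_num at h3
  · intro h
    have h1 : rf 1 hn1 0 = rf (-1) hnn1 0 := congrArg Subtype.val h
    have h2 : rf 1 hn1 0 1 = rf (-1) hnn1 0 1 := by rw [h1]
    have h3 : (1 : ℂ) * (starRingEnd ℂ) 1 + 0 = (-1 : ℂ) * (starRingEnd ℂ) 1 + 0 := h2
    rw [map_one] at h3
    norm_num at h3
  · apply Subtype.ext
    ext z
    show (1 : ℂ) * (starRingEnd ℂ) (1 * (starRingEnd ℂ) z + 0) + 0 = z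
    simp
  · apply Subtype.ext
    ext z
    show (-1 : ℂ) * (starRingEnd ℂ) (-1 * (starRingEnd ℂ) z + 0) + 0 = z
    simp
  · apply Subtype.ext
    ext z
    show (1 : ℂ) * (starRingEnd ℂ) (-1 * (starRingEnd ℂ) z + 0) + 0 =
      (-1 : ℂ) * (starRingEnd ℂ) (1 * (starRingEnd ℂ) z + 0) + 0
    simp

theorem parity {u v l m : ℂ} (hu : u = Complex.I ∨ u = -Complex.I) (hv : v ^ 4 = 1)
    (hl : l ∈ L4) (hm : m ∈ L4) (hE : (1 + u) * (m + h4) = u * l - v * cj l) : False := by
  obtain ⟨a, b, rfl⟩ := hl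
  obtain ⟨c, d, rfl⟩ := hm
  have hcj : cj ((a : ℂ) + b * Complex.I) = a - b * Complex.I := by
    show (starRingEnd ℂ) ((a : ℂ) + b * Complex.I) = _
    rw [map_add, map_mul, map_intCast, map_intCast, Complex.conj_I]
    ring
  rw [hcj] at hE
  rcases hu with rfl | rfl
  · have e0 : (1 + Complex.I) * h4 = Complex.I := by
      unfold h4; linear_combination (1 / 2) * Complex.I_mul_I
    rw [mul_add, e0] at hE
    rcases units4 hv with rfl | rfl | rfl | rfl <;>
    · have r := congrArg Complex.re hE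
      have i := congrArg Complex.im hE
      simp at r i
      norm_cast at r i
      omega
  · have e0 : (1 + -Complex.I) * h4 = 1 := by
      unfold h4; linear_combination (-1 / 2) * Complex.I_mul_I
    rw [mul_add, e0] at hE
    rcases units4 hv with rfl | rfl | rfl | rfl <;>
    · have r := congrArg Complex.re hE
      have i := congrArg Complex.im hE
      simp at r i
      norm_cast at r i
      omega

theorem nC_B : ¬ InvC (Grp dat4g True) := by
  rintro ⟨⟨g, hg⟩, ⟨s, hs⟩, h1, h2, h3, h4', h5⟩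
  have k1 : g * g ≠ 1 := fun hh => h1 (Subtype.ext hh)
  have k2 : g * g * (g * g) = 1 := congrArg Subtype.val h2
  have k4 : s * s = 1 := congrArg Subtype.val h4'
  have k5 : s * g * s * g = 1 := congrArg Subtype.val h5
  have e2 : ∀ z, g (g (g (g z))) = z := fun z => congrArg (fun f : ℂ ≃ᵢ ℂ => f z) k2
  have e4 : ∀ z, s (s z) = z := fun z => congrArg (fun f : ℂ ≃ᵢ ℂ => f z) k4
  have e5 : ∀ z, s (g (s (g z))) = z := fun z => congrArg (fun f : ℂ ≃ᵢ ℂ => f z) k5
  rcases hg with ⟨u, hu, hun, l, hl, hg⟩ | ⟨-, u, hu, hun, l, hl, hg⟩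
  · -- rotation
    have hu2 : u = Complex.I ∨ u = -Complex.I := by
      rcases units4 hun with rfl | rfl | rfl | rfl
      · exfalso
        have := e2 0
        rw [hg, hg, hg, hg] at this
        have hl0 : l = 0 := by linear_combination this / 4
        apply k1
        ext z
        show g (g z) = z
        rw [hg, hg, hl0]
        ring
      · exfalso
        apply k1
        ext z
        show g (g z) = z
        rw [hg, hg]
        ring
      · exact Or.inl rfl
      · exact Or.inr rfl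
    have huu : u * u = -1 := by
      rcases hu2 with rfl | rfl
      · exact Complex.I_mul_I
      · linear_combination Complex.I_mul_I
    have hcu : cj u = -u := by
      rcases hu2 with rfl | rfl
      · exact Complex.conj_I
      · show (starRingEnd ℂ) (-Complex.I) = _
        rw [map_neg, Complex.conj_I]
    rcases hs with ⟨v, hv, hvn, m, hm, hs⟩ | ⟨-, v, hv, hvn, m, hm, hs⟩
    · have a0 := e4 0
      have a1 := e4 1
      rw [hs, hs] at a0 a1
      have b0 := e5 0
      have b1 := e5 1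
      rw [hs, hg, hs, hg] at b0 b1
      have c1 : v * v = 1 := by linear_combination a1 - a0
      have c2 : v * v * (u * u) = 1 := by linear_combination b1 - b0
      rw [c1, huu] at c2
      norm_num at c2
    · have hvc := mul_cj (n := 4) (by norm_num) hvn
      have a0 := e4 0
      rw [hs, hs] at a0
      have b0 := e5 0
      rw [hs, hg, hs, hg] at b0
      refine parity hu2 hvn hl hm ?_
      have hcu' : (starRingEnd ℂ) u = -u := hcu
      have hvc' : v * (starRingEnd ℂ) v = 1 := hvc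
      simp only [cj, map_add, map_mul, map_zero, Complex.conj_conj, mul_zero, zero_add,
        hcu'] at a0 b0 ⊢
      linear_combination b0 + u * a0 + u * l * hvc'
  · -- glide or reflection
    have huc := mul_cj (n := 4) (by norm_num) hun
    have huc' : u * (starRingEnd ℂ) u = 1 := huc
    have f1 : ∀ z, g (g z) = z + (u * cj (l + h4) + (l + h4)) := by
      intro z
      rw [hg, hg]
      simp only [cj, map_add, map_mul, Complex.conj_conj]
      linear_combination z * huc'
    have f2 := e2 0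
    rw [f1, f1] at f2
    have f3 : u * cj (l + h4) + (l + h4) = 0 := by linear_combination f2 / 2
    apply k1
    ext z
    show g (g z) = z
    rw [f1, f3, add_zero]

theorem t_N4 : T_N4 := by
  let A : Subgroup (ℂ ≃ᵢ ℂ) := Grp dat4 False
  let B : Subgroup (ℂ ≃ᵢ ℂ) := Grp dat4g True
  let C : Subgroup (ℂ ≃ᵢ ℂ) := Grp dat4 True
  have I4 : Complex.I ^ 4 = 1 := by
    linear_combination (Complex.I * Complex.I - 1) * Complex.I_mul_I
  have gA : g4 ∈ A := Or.inl ⟨Complex.I, dat4.mem, I4, 0, zero_mem _, fun z => rfl⟩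
  have gB : g4 ∈ B := Or.inl ⟨Complex.I, dat4.mem, I4, 0, zero_mem _, fun z => rfl⟩
  have gC : g4 ∈ C := Or.inl ⟨Complex.I, dat4.mem, I4, 0, zero_mem _, fun z => rfl⟩
  have nA : ¬ InvB A := not_InvB _
  have iB : InvB B := gB_B
  have iC : InvB C := gB_C
  have jC : InvC C := gC_C
  have nB : ¬ InvC B := nC_B
  have hAB : IsEmpty (A ≃* B) := ⟨fun e => nA (iB.map e.symm)⟩
  have hAC : IsEmpty (A ≃* C) := ⟨fun e => nA (iC.map e.symm)⟩
  have hBC : IsEmpty (B ≃* C) := ⟨fun e => nB (jC.map e.symm)⟩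
  have hBA : IsEmpty (B ≃* A) := ⟨fun e => nA (iB.map e)⟩
  have hCA : IsEmpty (C ≃* A) := ⟨fun e => nA (iC.map e)⟩
  have hCB : IsEmpty (C ≃* B) := ⟨fun e => nB (jC.map e)⟩
  refine ⟨![A, B, C], ?_, ?_, ?_⟩
  · intro i
    fin_cases i
    · exact wall dat4 False
    · exact wall dat4g True
    · exact wall dat4 True
  · intro i
    refine ⟨g4, ?_, g4_order⟩
    fin_cases i
    · exact gA
    · exact gB
    · exact gC
  · intro i j hij
    fin_cases i <;> fin_cases j
    · exact absurd rfl hij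
    · exact hAB
    · exact hAC
    · exact hBA
    · exact absurd rfl hij
    · exact hBC
    · exact hCA
    · exact hCB
    · exact absurd rfl hij

end

end H74R2.WT.N34

namespace H74R2.WT

/-- task N4 -/
theorem t_N4 : T_N4 := N34.t_N4

end H74R2.WT
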